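import Pool.Agent.H8.BV.Targets

/-! Row GEX of the board `bv_modules`. -/

set_option autoImplicit false

open MvPolynomial
open Pool.Agent.H12.ZD (pmap)
open Pool.Agent.H18.HIT Pool.Agent.H18.HX Pool.Agent.H18.VZ
open Pool.Agent.H8.BIG (KF line)
open Pool.Agent.H8.BV

namespace Pool.Agent.H99.BV

theorem pf_GEX (hNRD : T_NRD) (hGEN : Pool.Agent.H8.BIG.T_GEN) : T_GEX := by
  intro N r E μ k _ P Q y γ hP hγ hl hPQ hQ hX
  obtain ⟨R, A, B, hR, hRd, hup⟩ := hNRD N r μ k P Q hP hPQ hQ
  by_contra hlt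
  have hlt' : r * μ < E := not_le.1 hlt
  have h1 : aeval γ (up R) = aeval (line y) R := by
    have : aeval γ (up R) = aeval (fun i : Fin N => γ i.succ) R := by
      unfold up
      rw [aeval_rename]
      rfl
    rw [this]
    congr 2
    funext i
    exact hl i
  have h2 : PowerSeries.X ^ E ∣ aeval (line y) R := by
    rw [← h1, hup, map_add, map_mul, map_mul, hγ, mul_zero, zero_add]
    exact Dvd.dvd.mul_left hX _
  exact hR (hGEN N k y R E (lt_of_le_of_lt hRd hlt') h2)

end Pool.Agent.H99.BV
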